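import Pool.Agent.V5helper50.SP.Stm
import Pool.Agent.V5helper70.MT.AE

/-! Project SP, job AE. -/

set_option autoImplicit false

namespace Pool.Agent.V5helper61.SP

open Finset MeasureTheory Filter
open Pool.Agent.V5helper51.MT (g a cube)
open Pool.Agent.V5helper50.SP
open Pool.Agent.V5helper70.MT (meas_a meas_E meas_cube cube_fin)
open scoped ENNReal

lemma cnt_mono {k : ℕ} (b : ℕ → ℤ) {I J : Fin k → Finset ℕ} (h : ∀ i, I i ⊆ J i) :
    cnt b I ≤ cnt b J := by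
  unfold cnt
  apply card_le_card
  apply filter_subset_filter
  exact product_subset_product (Fintype.piFinset_subset _ _ h) (Fintype.piFinset_subset _ _ h)

lemma cnt_one {k : ℕ} (b : ℕ → ℤ) : cnt b (fun _ : Fin k => range 1) ≤ 1 := by
  unfold cnt
  refine (card_filter_le _ _).trans ?_
  rw [card_product, Fintype.card_piFinset]
  simp

/-- the number of pairs -/
noncomputable def CC (k q m : ℕ) (α : Fin (k - 1) → ℝ) : ℕ :=
  cnt (a k q α) (fun _ : Fin k => Ico (2 ^ m) (2 * 2 ^ m))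

lemma CC_eq (k q m : ℕ) (α : Fin (k - 1) → ℝ) : ((CC k q m α : ℕ) : ℝ≥0∞) =
    ∑ p ∈ (Fintype.piFinset fun _ : Fin k => Ico (2 ^ m) (2 * 2 ^ m)) ×ˢ
      (Fintype.piFinset fun _ : Fin k => Ico (2 ^ m) (2 * 2 ^ m)),
      {β : Fin (k - 1) → ℝ | ∑ i, a k q β (p.1 i) = ∑ i, a k q β (p.2 i)}.indicator
        (fun _ => (1 : ℝ≥0∞)) α := by
  unfold CC cnt
  rw [card_filter]
  push_cast
  apply sum_congr rfl
  intro p _
  by_cases h : ∑ i, a k q α (p.1 i) = ∑ i, a k q α (p.2 i)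
  · rw [if_pos h]
    exact (Set.indicator_of_mem (show α ∈ {β : Fin (k - 1) → ℝ | ∑ i, a k q β (p.1 i) =
      ∑ i, a k q β (p.2 i)} from h) (fun _ => (1 : ℝ≥0∞))).symm
  · rw [if_neg h]
    exact (Set.indicator_of_notMem (show α ∉ {β : Fin (k - 1) → ℝ | ∑ i, a k q β (p.1 i) =
      ∑ i, a k q β (p.2 i)} from h) (fun _ => (1 : ℝ≥0∞))).symm

lemma bad (hIT : S_IT) (k q A : ℕ) (hk : 2 ≤ k) (hq : 1 ≤ q) (hA : 1 ≤ A) (ε : ℝ) (hε : 0 < ε) :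
    ∃ C : ℝ, 0 < C ∧ ∀ m : ℕ, (volume.restrict (cube k A)) {α : Fin (k - 1) → ℝ |
      ((2 : ℝ) ^ m) ^ ((k : ℝ) + ε / 2) < (CC k q m α : ℝ)} ≤
      ENNReal.ofReal (C * ((2 : ℝ) ^ (-(ε / 4))) ^ m) := by
  obtain ⟨C, hC, h⟩ := hIT k q A hk hq hA (ε / 4) (by positivity)
  refine ⟨C, hC, fun m => ?_⟩
  have h1 := h (2 ^ m) (Nat.one_le_two_pow)
  push_cast at h1
  have hmeas : AEMeasurable (fun α : Fin (k - 1) → ℝ => ((CC k q m α : ℕ) : ℝ≥0∞))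
      (volume.restrict (cube k A)) := by
    apply Measurable.aemeasurable
    simp only [CC_eq]
    apply Finset.measurable_sum
    intro p _
    exact measurable_const.indicator (meas_E k q p.1 p.2)
  have hint : ∫⁻ α, ((CC k q m α : ℕ) : ℝ≥0∞) ∂(volume.restrict (cube k A)) ≤
      ENNReal.ofReal (C * ((2 : ℝ) ^ m) ^ ((k : ℝ) + ε / 4)) := by
    simp only [CC_eq]
    rw [lintegral_finsetSum _ (fun p _ => measurable_const.indicator (meas_E k q p.1 p.2))]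
    have e1 : ∀ p : (Fin k → ℕ) × (Fin k → ℕ), ∫⁻ α, {β : Fin (k - 1) → ℝ | ∑ i, a k q β (p.1 i) =
        ∑ i, a k q β (p.2 i)}.indicator (fun _ => (1 : ℝ≥0∞)) α ∂(volume.restrict (cube k A)) =
        ENNReal.ofReal (volume.real {α : Fin (k - 1) → ℝ | α ∈ cube k A ∧
          ∑ i, a k q α (p.1 i) = ∑ i, a k q α (p.2 i)}) := by
      intro p
      rw [lintegral_indicator (meas_E k q p.1 p.2), setLIntegral_one,
        Measure.restrict_apply (meas_E k q p.1 p.2)]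
      have e2 : {β : Fin (k - 1) → ℝ | ∑ i, a k q β (p.1 i) = ∑ i, a k q β (p.2 i)} ∩ cube k A =
          {α : Fin (k - 1) → ℝ | α ∈ cube k A ∧ ∑ i, a k q α (p.1 i) = ∑ i, a k q α (p.2 i)} := by
        ext α
        exact and_comm
      rw [e2, ofReal_measureReal (ne_top_of_le_ne_top (cube_fin k A) (measure_mono fun α hα => hα.1))]
    simp only [e1]
    rw [← ENNReal.ofReal_sum_of_nonneg (fun p _ => measureReal_nonneg)]
    apply ENNReal.ofReal_le_ofReal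
    rw [sum_product]
    exact h1
  have hB0 : 0 < ((2 : ℝ) ^ m) ^ ((k : ℝ) + ε / 2) := by positivity
  have hmk := mul_meas_ge_le_lintegral₀ hmeas (ENNReal.ofReal (((2 : ℝ) ^ m) ^ ((k : ℝ) + ε / 2)))
  have hsub : {α : Fin (k - 1) → ℝ | ((2 : ℝ) ^ m) ^ ((k : ℝ) + ε / 2) < (CC k q m α : ℝ)} ⊆
      {α | ENNReal.ofReal (((2 : ℝ) ^ m) ^ ((k : ℝ) + ε / 2)) ≤ ((CC k q m α : ℕ) : ℝ≥0∞)} := by
    intro α hα
    have h2 : ((2 : ℝ) ^ m) ^ ((k : ℝ) + ε / 2) < (CC k q m α : ℝ) := hα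
    show ENNReal.ofReal (((2 : ℝ) ^ m) ^ ((k : ℝ) + ε / 2)) ≤ ((CC k q m α : ℕ) : ℝ≥0∞)
    rw [← ENNReal.ofReal_natCast]
    exact ENNReal.ofReal_le_ofReal h2.le
  refine (measure_mono hsub).trans ?_
  have h3 := hmk.trans hint
  rw [mul_comm, ← ENNReal.le_div_iff_mul_le (Or.inl (by simpa using hB0)) (Or.inl ENNReal.ofReal_ne_top),
    ← ENNReal.ofReal_div_of_pos hB0] at h3
  refine h3.trans (ENNReal.ofReal_le_ofReal (le_of_eq ?_))
  rw [Real.rpow_pow_comm (by norm_num), mul_div_assoc, ← Real.rpow_sub (by positivity)]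
  congr 2
  ring

lemma one (hIT : S_IT) (k q A : ℕ) (hk : 2 ≤ k) (hq : 1 ≤ q) (hA : 1 ≤ A) (ε : ℝ) (hε : 0 < ε) :
    ∀ᵐ α : Fin (k - 1) → ℝ ∂(volume.restrict (cube k A)), ∃ m₀ : ℕ, ∀ m ≥ m₀,
      (CC k q m α : ℝ) ≤ ((2 : ℝ) ^ m) ^ ((k : ℝ) + ε / 2) := by
  obtain ⟨C, hC, h⟩ := bad hIT k q A hk hq hA ε hε
  have hs : Summable fun m : ℕ => C * ((2 : ℝ) ^ (-(ε / 4))) ^ m :=
    (summable_geometric_of_lt_one (by positivity)
      (Real.rpow_lt_one_of_one_lt_of_neg (by norm_num) (by linarith))).mul_left C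
  have h1 : ∑' m : ℕ, (volume.restrict (cube k A)) {α : Fin (k - 1) → ℝ |
      ((2 : ℝ) ^ m) ^ ((k : ℝ) + ε / 2) < (CC k q m α : ℝ)} ≠ ⊤ :=
    ne_top_of_le_ne_top hs.tsum_ofReal_ne_top (ENNReal.tsum_le_tsum fun m => h m)
  filter_upwards [ae_eventually_notMem h1] with α hα
  obtain ⟨m₀, hm₀⟩ := eventually_atTop.1 hα
  refine ⟨m₀, fun m hm => ?_⟩
  have h2 := hm₀ m hm
  exact not_lt.mp h2

lemma fin_bd (hHOL : S_HOL) (k : ℕ) (hk : 2 ≤ k) (b : ℕ → ℤ) (ε : ℝ) (hε : 0 < ε) (m₀ : ℕ)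
    (hm : ∀ m ≥ m₀, (cnt b (fun _ : Fin k => Ico (2 ^ m) (2 * 2 ^ m)) : ℝ) ≤
      ((2 : ℝ) ^ m) ^ ((k : ℝ) + ε / 2)) :
    ∃ C : ℝ, 0 < C ∧ ∀ X : ℕ, 1 ≤ X →
      (cnt b (fun _ : Fin k => range X) : ℝ) ≤ C * (X : ℝ) ^ ((k : ℝ) + ε) := by
  obtain ⟨s, hs⟩ : ∃ s : ℝ, s = (k : ℝ) + ε / 2 := ⟨_, rfl⟩
  rw [← hs] at hm
  have hs0 : 0 ≤ s := by rw [hs]; positivity
  have h1 : ∀ m : ℕ, (1 : ℝ) ≤ ((2 : ℝ) ^ m) ^ s := fun m =>
    Real.one_le_rpow (one_le_pow₀ (by norm_num)) hs0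
  obtain ⟨C1, hC1⟩ : ∃ C1 : ℝ, C1 = 1 + ∑ m ∈ range m₀,
    (cnt b (fun _ : Fin k => Ico (2 ^ m) (2 * 2 ^ m)) : ℝ) := ⟨_, rfl⟩
  have hC1' : 1 ≤ C1 := by
    rw [hC1]
    have : 0 ≤ ∑ m ∈ range m₀, (cnt b (fun _ : Fin k => Ico (2 ^ m) (2 * 2 ^ m)) : ℝ) :=
      sum_nonneg fun _ _ => Nat.cast_nonneg _
    linarith
  have h2 : ∀ m : ℕ, (cnt b (fun _ : Fin k => Ico (2 ^ m) (2 * 2 ^ m)) : ℝ) ≤ C1 * ((2 : ℝ) ^ m) ^ s := by
    intro m
    by_cases h : m₀ ≤ m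
    · exact (hm m h).trans (le_mul_of_one_le_left (by positivity) hC1')
    · have h3 : (cnt b (fun _ : Fin k => Ico (2 ^ m) (2 * 2 ^ m)) : ℝ) ≤
          ∑ m ∈ range m₀, (cnt b (fun _ : Fin k => Ico (2 ^ m) (2 * 2 ^ m)) : ℝ) :=
        single_le_sum (f := fun m => (cnt b (fun _ : Fin k => Ico (2 ^ m) (2 * 2 ^ m)) : ℝ))
          (fun _ _ => Nat.cast_nonneg _) (mem_range.2 (not_le.1 h))
      have h4 : C1 ≤ C1 * ((2 : ℝ) ^ m) ^ s := le_mul_of_one_le_right (by linarith) (h1 m)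
      refine le_trans ?_ h4
      rw [hC1]
      linarith
  have hr : (1 : ℝ) < (2 : ℝ) ^ (ε / 2) := Real.one_lt_rpow (by norm_num) (by positivity)
  obtain ⟨C3, hC3⟩ := (tendsto_pow_const_div_const_pow_of_one_lt (2 * k) hr).bddAbove_range
  have hC3' : ∀ n : ℕ, (n : ℝ) ^ (2 * k) ≤ max C3 1 * ((2 : ℝ) ^ (ε / 2)) ^ n := by
    intro n
    have h3 := hC3 (Set.mem_range_self n)
    rw [div_le_iff₀ (by positivity)] at h3
    exact h3.trans (mul_le_mul_of_nonneg_right (le_max_left _ _) (by positivity))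
  have hmx : 0 < max C3 1 := lt_of_lt_of_le one_pos (le_max_right _ _)
  have hC0 : 0 < C1 := by linarith
  refine ⟨C1 * (max C3 1 * (2 : ℝ) ^ (ε / 2)) * (2 : ℝ) ^ ((k : ℝ) + ε), by positivity,
    fun X hX => ?_⟩
  obtain ⟨N, hN⟩ : ∃ N : ℕ, N = Nat.size X := ⟨_, rfl⟩
  have hN0 : 0 < N := hN ▸ Nat.size_pos.2 hX
  have hNX : 2 ^ N ≤ 2 * X := by
    have h3 : 2 ^ (N - 1) ≤ X := Nat.lt_size.1 (by rw [← hN]; omega)
    have h4 : 2 ^ N = 2 * 2 ^ (N - 1) := by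
      rw [← pow_succ']
      congr 1
      omega
    omega
  have hNXr : (2 : ℝ) ^ N ≤ 2 * X := by exact_mod_cast hNX
  obtain ⟨J, hJm⟩ : ∃ J : Fin (N + 1) → Finset ℕ, ∀ i x, x ∈ J i ↔ x ∈ range X ∧ Nat.size x = i :=
    ⟨fun i => (range X).filter fun x => Nat.size x = i, fun i x => mem_filter⟩
  have hJ := hHOL k (N + 1) (by omega) b J (by
    intro i j hij
    rw [Finset.disjoint_left]
    intro x hx hy
    have h3 := ((hJm _ _).1 hx).2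
    have h4 := ((hJm _ _).1 hy).2
    exact hij (Fin.ext (h3.symm.trans h4)))
  have h5 : cnt b (fun _ : Fin k => range X) ≤ cnt b (fun _ : Fin k => univ.biUnion J) := by
    apply cnt_mono
    intro _ x hx
    have hx' := mem_range.1 hx
    have h6 : Nat.size x ≤ N := hN ▸ Nat.size_le_size hx'.le
    exact mem_biUnion.2 ⟨⟨Nat.size x, by omega⟩, mem_univ _, (hJm _ _).2 ⟨hx, rfl⟩⟩
  have h7 : ∀ i : Fin (N + 1), (cnt b (fun _ : Fin k => J i) : ℝ) ≤ C1 * ((2 : ℝ) ^ N) ^ s := by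
    intro i
    by_cases hi0 : (i : ℕ) = 0
    · have h8 : cnt b (fun _ : Fin k => J i) ≤ cnt b (fun _ : Fin k => range 1) := by
        apply cnt_mono
        intro _ x hx
        have h9 : Nat.size x = i := ((hJm _ _).1 hx).2
        have h10 := Nat.size_eq_zero.1 (h9.trans hi0)
        rw [h10]
        exact mem_range.2 one_pos
      have h9n : cnt b (fun _ : Fin k => J i) ≤ 1 := h8.trans (cnt_one b)
      have h9 : (cnt b (fun _ : Fin k => J i) : ℝ) ≤ 1 := by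
        generalize cnt b (fun _ : Fin k => J i) = t at h9n
        exact_mod_cast h9n
      have h10 : C1 ≤ C1 * ((2 : ℝ) ^ N) ^ s := le_mul_of_one_le_right (by linarith) (h1 N)
      exact h9.trans (hC1'.trans h10)
    · obtain ⟨j, hj⟩ : ∃ j : ℕ, (i : ℕ) = j + 1 := ⟨i - 1, by omega⟩
      have hiN := i.isLt
      have h8 : cnt b (fun _ : Fin k => J i) ≤
          cnt b (fun _ : Fin k => Ico (2 ^ j) (2 * 2 ^ j)) := by
        apply cnt_mono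
        intro _ x hx
        have h9 : Nat.size x = j + 1 := ((hJm _ _).1 hx).2.trans hj
        rw [mem_Ico]
        refine ⟨Nat.lt_size.1 (by omega), ?_⟩
        rw [← pow_succ']
        exact Nat.size_le.1 h9.le
      have h9 : (cnt b (fun _ : Fin k => J i) : ℝ) ≤
          (cnt b (fun _ : Fin k => Ico (2 ^ j) (2 * 2 ^ j)) : ℝ) := Nat.cast_le.2 h8
      refine h9.trans ((h2 j).trans ?_)
      apply mul_le_mul_of_nonneg_left _ (by positivity)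
      apply Real.rpow_le_rpow (by positivity) _ hs0
      exact pow_le_pow_right₀ (by norm_num) (by omega)
  have h8 : ∑ i, (cnt b (fun _ : Fin k => J i) : ℝ) ≤ ((N + 1 : ℕ) : ℝ) * (C1 * ((2 : ℝ) ^ N) ^ s) := by
    refine (sum_le_sum fun i _ => h7 i).trans (le_of_eq ?_)
    rw [sum_const, card_univ, Fintype.card_fin, nsmul_eq_mul]
  have h9 : (cnt b (fun _ : Fin k => range X) : ℝ) ≤
      ((N + 1 : ℕ) : ℝ) ^ (2 * k) * (C1 * ((2 : ℝ) ^ N) ^ s) := by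
    have h10 : (cnt b (fun _ : Fin k => range X) : ℝ) ≤
        (cnt b (fun _ : Fin k => univ.biUnion J) : ℝ) := Nat.cast_le.2 h5
    refine h10.trans (hJ.trans ?_)
    have h11 : ((N + 1 : ℕ) : ℝ) ^ (2 * k) = ((N + 1 : ℕ) : ℝ) ^ (2 * k - 1) * ((N + 1 : ℕ) : ℝ) := by
      rw [← pow_succ]
      congr 1
      omega
    rw [h11, mul_assoc]
    exact mul_le_mul_of_nonneg_left h8 (by positivity)
  have h10 := hC3' (N + 1)
  have h11 : ((2 : ℝ) ^ (ε / 2)) ^ (N + 1) = ((2 : ℝ) ^ N) ^ (ε / 2) * (2 : ℝ) ^ (ε / 2) := by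
    rw [pow_succ, Real.rpow_pow_comm (by norm_num)]
  have h12 : ((2 : ℝ) ^ N) ^ (ε / 2) * ((2 : ℝ) ^ N) ^ s = ((2 : ℝ) ^ N) ^ ((k : ℝ) + ε) := by
    rw [← Real.rpow_add (by positivity)]
    congr 1
    rw [hs]
    ring
  have h13 : ((2 : ℝ) ^ N) ^ ((k : ℝ) + ε) ≤ (2 : ℝ) ^ ((k : ℝ) + ε) * (X : ℝ) ^ ((k : ℝ) + ε) := by
    rw [← Real.mul_rpow (by norm_num) (by positivity)]
    exact Real.rpow_le_rpow (by positivity) hNXr (by positivity)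
  calc (cnt b (fun _ : Fin k => range X) : ℝ) ≤ ((N + 1 : ℕ) : ℝ) ^ (2 * k) * (C1 * ((2 : ℝ) ^ N) ^ s) := h9
    _ ≤ (max C3 1 * ((2 : ℝ) ^ (ε / 2)) ^ (N + 1)) * (C1 * ((2 : ℝ) ^ N) ^ s) :=
      mul_le_mul_of_nonneg_right h10 (by positivity)
    _ = C1 * (max C3 1 * (2 : ℝ) ^ (ε / 2)) * (((2 : ℝ) ^ N) ^ (ε / 2) * ((2 : ℝ) ^ N) ^ s) := by
      rw [h11]
      ring
    _ = C1 * (max C3 1 * (2 : ℝ) ^ (ε / 2)) * ((2 : ℝ) ^ N) ^ ((k : ℝ) + ε) := by rw [h12]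
    _ ≤ C1 * (max C3 1 * (2 : ℝ) ^ (ε / 2)) * ((2 : ℝ) ^ ((k : ℝ) + ε) * (X : ℝ) ^ ((k : ℝ) + ε)) :=
      mul_le_mul_of_nonneg_left h13 (by positivity)
    _ = C1 * (max C3 1 * (2 : ℝ) ^ (ε / 2)) * (2 : ℝ) ^ ((k : ℝ) + ε) * (X : ℝ) ^ ((k : ℝ) + ε) := by
      ring

theorem t_AE (hIT : S_IT) (hHOL : S_HOL) : S_AE := by
  intro k hk ε hε
  have h : ∀ᵐ α : Fin (k - 1) → ℝ, ∀ q A : ℕ, 1 ≤ q → 1 ≤ A → α ∈ cube k A → ∃ m₀ : ℕ, ∀ m ≥ m₀,
      (CC k q m α : ℝ) ≤ ((2 : ℝ) ^ m) ^ ((k : ℝ) + ε / 2) := by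
    rw [ae_all_iff]
    intro q
    rw [ae_all_iff]
    intro A
    by_cases hq : 1 ≤ q
    · by_cases hA : 1 ≤ A
      · have h1 := (ae_restrict_iff' (meas_cube k A)).1 (one hIT k q A hk hq hA ε hε)
        filter_upwards [h1] with α hα _ _ hc
        exact hα hc
      · filter_upwards with α _ hA'
        exact absurd hA' hA
    · filter_upwards with α hq'
      exact absurd hq' hq
  filter_upwards [h] with α hα q hq
  obtain ⟨A, hA⟩ := exists_nat_ge (∑ j, |α j|)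
  have hmem : α ∈ cube k (A + 1) := by
    intro j
    have h1 : |α j| ≤ ∑ j, |α j| :=
      single_le_sum (f := fun j => |α j|) (fun i _ => abs_nonneg _) (mem_univ j)
    push_cast
    linarith
  obtain ⟨m₀, hm₀⟩ := hα q (A + 1) hq (by omega) hmem
  exact fin_bd hHOL k hk (a k q α) ε hε m₀ hm₀

end Pool.Agent.V5helper61.SP
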